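import Pool.Agent.Helper45.SP.Third
import Pool.Agent.Helper55.SP.Phi

/-!
Module SP-08c of project SP (MP_66ebcc_gt): four equal coordinates.
-/

set_option autoImplicit false

open MeasureTheory Set Real Slab

namespace Pool.Agent.Helper89.SP

theorem E4_bound {t x F : ℝ} {l : List ℝ} (hc : Crit t x (x :: x :: x :: l))
    (hsq : sq (x :: x :: x :: x :: l) = 1) (hx : 0 < x) (h2 : 2 * x < t) (h4 : t < 4 * x)
    (h1 : t * x ≤ 1) (hB : Beats4 t x F) : T (x :: x :: x :: x :: l) t < F := by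
  have hsl : sq l = 1 - 4 * x ^ 2 := by
    unfold sq at hsq ⊢
    simp only [List.map_cons, List.sum_cons] at hsq
    linarith
  unfold Crit at hc
  have d1 := third_difference l hx (t - x)
  have d2 := third_difference l hx (t + x)
  rw [show 3 * x - (t - x) = 4 * x - t by ring, show x - (t - x) = -(t - 2 * x) by ring,
    show -x - (t - x) = -t by ring, show -(3 * x) - (t - x) = -(t + 2 * x) by ring] at d1
  rw [show 3 * x - (t + x) = -(t - 2 * x) by ring, show x - (t + x) = -t by ring,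
    show -x - (t + x) = -(t + 2 * x) by ring, show -(3 * x) - (t + x) = -(t + 4 * x) by ring] at d2
  have ht : 0 < t := by linarith
  have e1 := Phi_sub l (4 * x - t)
  have b1 := Phi_neg_le l (s := 4 * x - t) (by linarith)
  have b2 := Phi_neg_le l (s := t - 2 * x) (by linarith)
  have b3 := Phi_neg_le l (s := t + 2 * x) (by linarith)
  rw [hsl] at e1 b1 b2 b3
  have n1 := Phi_nonneg l (-(t - 2 * x))
  have n2 := Phi_nonneg l (-t)
  have n3 := Phi_nonneg l (-(t + 4 * x))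
  obtain ⟨C1, hC1⟩ : ∃ C, C = Cb ((1 - 4 * x ^ 2) / 3) (4 * x - t) := ⟨_, rfl⟩
  obtain ⟨C2, hC2⟩ : ∃ C, C = Cb ((1 - 4 * x ^ 2) / 3) (t - 2 * x) := ⟨_, rfl⟩
  obtain ⟨C3, hC3⟩ : ∃ C, C = Cb ((1 - 4 * x ^ 2) / 3) (t + 2 * x) := ⟨_, rfl⟩
  unfold Beats4 at hB
  rw [← hC1, ← hC2, ← hC3] at hB
  rw [← hC1] at b1
  rw [← hC2] at b2
  rw [← hC3] at b3
  have htx : 0 < t * x := mul_pos ht hx
  have k1 : (1 - t * x) * Phi l (-(4 * x - t)) ≤ (1 - t * x) * C1 :=
    mul_le_mul_of_nonneg_left b1 (by linarith)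
  have k2 : (4 * (t * x) - 2) * Phi l (-(t - 2 * x)) ≤ max (4 * (t * x) - 2) 0 * C2 :=
    (mul_le_mul_of_nonneg_right (le_max_left _ _) n1).trans
      (mul_le_mul_of_nonneg_left b2 (le_max_right _ _))
  have k3 : (2 + 4 * (t * x)) * Phi l (-(t + 2 * x)) ≤ (2 + 4 * (t * x)) * C3 :=
    mul_le_mul_of_nonneg_left b3 (by linarith)
  have k4 : 0 ≤ 6 * (t * x) * Phi l (-t) := by positivity
  have k5 : 0 ≤ (1 + t * x) * Phi l (-(t + 4 * x)) := by positivity
  have e2 : Phi l (4 * x - t) = Phi l (-(4 * x - t)) + ((4 * x - t) ^ 3 + (4 * x - t) * (1 - 4 * x ^ 2)) := by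
    linarith
  have hT : 48 * x ^ 3 * T (x :: x :: x :: x :: l) t =
      (1 - t * x) * (48 * x ^ 3 * P (x :: x :: x :: l) (t - x)) +
        (1 + t * x) * (48 * x ^ 3 * P (x :: x :: x :: l) (t + x)) := by
    rw [hc]; ring
  rw [d1, d2, e2] at hT
  have h48 : 0 < 48 * x ^ 3 := by positivity
  refine lt_of_mul_lt_mul_left ?_ h48.le
  rw [hT]
  refine lt_of_le_of_lt ?_ hB
  linarith

end Pool.Agent.Helper89.SP
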