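import Pool.Agent.Helper89.FA.Main

/-!
Module SP-14 of project SP (MP_66ebcc_gt): dimension three.
-/

set_option autoImplicit false

open MeasureTheory Set Real
open Pool.Agent.Helper88.Slab (prob ind A cube)

namespace Pool.Agent.Helper89.SP

open Pool.Agent.Helper88.Slab
open Pool.Agent.Helper89.FA (prob_abs prob_two algebra_two ff ff_neg exists_t1 three_min sqrt2_b sqrt3_b)

private lemma td_deriv (k : ℕ) (x : ℝ) :
    HasDerivAt (fun y : ℝ => (max 0 y) ^ (k + 2) / (k + 2)) ((max 0 x) ^ (k + 1)) x := by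
  have hk : ((k : ℝ) + 2) ≠ 0 := by positivity
  have hpow : ∀ z : ℝ, HasDerivAt (fun y : ℝ => y ^ (k + 2) / (k + 2)) (z ^ (k + 1)) z := by
    intro z
    have h := (hasDerivAt_pow (k + 2) z).div_const ((k : ℝ) + 2)
    have e : ((k + 2 : ℕ) : ℝ) * z ^ (k + 2 - 1) / ((k : ℝ) + 2) = z ^ (k + 1) := by
      push_cast
      rw [mul_div_assoc]
      field_simp
    rwa [e] at h
  rcases lt_trichotomy x 0 with hx | hx | hx
  · have e : (fun y : ℝ => (max 0 y) ^ (k + 2) / (k + 2)) =ᶠ[nhds x] fun _ => 0 := by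
      filter_upwards [gt_mem_nhds hx] with y hy
      rw [max_eq_left hy.le]; simp
    rw [max_eq_left hx.le, zero_pow (by omega)]
    exact (hasDerivAt_const x (0 : ℝ)).congr_of_eventuallyEq e
  · subst hx
    have h1 : HasDerivWithinAt (fun y : ℝ => (max 0 y) ^ (k + 2) / (k + 2)) ((max 0 (0:ℝ)) ^ (k + 1))
        (Iic 0) 0 := by
      refine (hasDerivWithinAt_const (0:ℝ) (Iic 0) (0:ℝ)).congr_of_eventuallyEq ?_ ?_ |>.congr_deriv ?_
      · filter_upwards [self_mem_nhdsWithin] with y hy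
        rw [max_eq_left (mem_Iic.mp hy)]; simp
      · simp
      · simp
    have h2 : HasDerivWithinAt (fun y : ℝ => (max 0 y) ^ (k + 2) / (k + 2)) ((max 0 (0:ℝ)) ^ (k + 1))
        (Ici 0) 0 := by
      refine (hpow 0).hasDerivWithinAt.congr_of_eventuallyEq ?_ ?_ |>.congr_deriv ?_
      · filter_upwards [self_mem_nhdsWithin] with y hy
        rw [max_eq_right (mem_Ici.mp hy)]
      · simp
      · simp
    have h3 := h1.union h2
    rw [Iic_union_Ici] at h3
    exact hasDerivWithinAt_univ.mp h3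
  · have e : (fun y : ℝ => (max 0 y) ^ (k + 2) / (k + 2)) =ᶠ[nhds x] fun y => y ^ (k + 2) / (k + 2) := by
      filter_upwards [lt_mem_nhds hx] with y hy
      rw [max_eq_right hy.le]
    rw [max_eq_right hx.le]
    exact (hpow x).congr_of_eventuallyEq e

private lemma td_integral (k : ℕ) (c a b : ℝ) :
    ∫ z in a..b, (max 0 (z - c)) ^ (k + 1) =
      (max 0 (b - c)) ^ (k + 2) / (k + 2) - (max 0 (a - c)) ^ (k + 2) / (k + 2) := by
  have h : ∀ z ∈ uIcc a b, HasDerivAt (fun y : ℝ => (max 0 (y - c)) ^ (k + 2) / (k + 2))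
      ((max 0 (z - c)) ^ (k + 1)) z := by
    intro z _
    have := (td_deriv k (z - c)).comp z ((hasDerivAt_id z).sub_const c)
    rw [mul_one] at this
    exact this
  exact intervalIntegral.integral_eq_sub_of_hasDerivAt h
    (Continuous.intervalIntegrable (by fun_prop) _ _)

private lemma td_A1 {s t : ℝ} (hs : 0 < s) (hst : s ≤ t) {z : ℝ} (hz : |z| ≤ t + s) :
    A s (ind t) z = 1 - (max 0 (z - (t - s)) + max 0 (-z - (t - s))) / (2 * s) := by
  rw [A_ind hs (hs.le.trans hst), eq_sub_iff_add_eq, ← add_div, div_eq_one_iff_eq (by positivity)]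
  obtain ⟨h1, h2⟩ := abs_le.mp hz
  unfold clamp
  rcases le_total z (t - s) with h | h
  · rw [max_eq_left (by linarith : z - (t - s) ≤ 0)]
    rcases le_total (-z) (t - s) with h' | h'
    · rw [max_eq_left (by linarith : -z - (t - s) ≤ 0), min_eq_right (by linarith : z + s ≤ t),
        min_eq_right (by linarith : z - s ≤ t), max_eq_right (by linarith), max_eq_right (by linarith)]
      ring
    · rw [max_eq_right (by linarith : 0 ≤ -z - (t - s)), min_eq_right (by linarith : z + s ≤ t),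
        min_eq_right (by linarith : z - s ≤ t), max_eq_right (by linarith), max_eq_left (by linarith)]
      ring
  · rw [max_eq_right (by linarith : 0 ≤ z - (t - s)), max_eq_left (by linarith : -z - (t - s) ≤ 0),
      min_eq_left (by linarith : t ≤ z + s), min_eq_right (by linarith : z - s ≤ t),
      max_eq_right (by linarith), max_eq_right (by linarith)]
    ring

private lemma td_A2 {p q r t : ℝ} (hq : 0 < q) (hr : 0 < r) (h1 : p + q ≤ t)
    (h2 : p + r ≤ t) (hrt : r ≤ t) {y : ℝ} (hy : |y| ≤ p) :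
    A q (A r (ind t)) y =
      1 - ((max 0 (y - (t - q - r))) ^ 2 + (max 0 (-y - (t - q - r))) ^ 2) / (8 * (q * r)) := by
  obtain ⟨hy1, hy2⟩ := abs_le.mp hy
  have hcont : Continuous (A r (ind t)) := A_ind_cont hr (hr.le.trans hrt)
  have e1 : A q (A r (ind t)) y = (1 / (2 * q)) * ∫ z in (y - q)..(y + q), A r (ind t) z := by
    rw [A_eq_diff hq (fun _ _ => hcont.intervalIntegrable _ _),
      intervalIntegral.integral_interval_sub_left (hcont.intervalIntegrable _ _)
        (hcont.intervalIntegrable _ _)]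
  have e2 : ∫ z in (y - q)..(y + q), A r (ind t) z =
      ∫ z in (y - q)..(y + q), (1 - ((max 0 (z - (t - r))) ^ (0 + 1) +
        (max 0 (-z - (t - r))) ^ (0 + 1)) / (2 * r)) := by
    apply intervalIntegral.integral_congr
    intro z hz
    rw [uIcc_of_le (by linarith)] at hz
    simp only
    rw [td_A1 hr hrt (abs_le.mpr ⟨by linarith [hz.1], by linarith [hz.2]⟩)]
    simp
  have e3 : ∫ z in (y - q)..(y + q), (max 0 (-z - (t - r))) ^ (0 + 1) =
      ∫ z in (-y - q)..(-y + q), (max 0 (z - (t - r))) ^ (0 + 1) := by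
    have := intervalIntegral.integral_comp_neg (a := y - q) (b := y + q)
      (f := fun z => (max 0 (z - (t - r))) ^ (0 + 1))
    rw [this]
    congr 1 <;> ring
  have i1 : IntervalIntegrable (fun z : ℝ => (max 0 (z - (t - r))) ^ (0 + 1)) volume (y - q) (y + q) :=
    Continuous.intervalIntegrable (by fun_prop) _ _
  have i2 : IntervalIntegrable (fun z : ℝ => (max 0 (-z - (t - r))) ^ (0 + 1)) volume (y - q) (y + q) :=
    Continuous.intervalIntegrable (by fun_prop) _ _
  rw [e1, e2, intervalIntegral.integral_sub (by simp) ((i1.add i2).div_const _),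
    intervalIntegral.integral_div, intervalIntegral.integral_add i1 i2, e3, td_integral, td_integral]
  rw [max_eq_left (by linarith : y - q - (t - r) ≤ 0),
    max_eq_left (by linarith : -y - q - (t - r) ≤ 0),
    show y + q - (t - r) = y - (t - q - r) by ring,
    show -y + q - (t - r) = -y - (t - q - r) by ring]
  simp only [intervalIntegral.integral_const, smul_eq_mul]
  push_cast
  field_simp
  ring

private lemma td_A3 {p q r t : ℝ} (hp : 0 < p) (hq : 0 < q) (hr : 0 < r) (h1 : p + q ≤ t)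
    (h2 : p + r ≤ t) (h3 : q + r ≤ t) (hc : Continuous (A q (A r (ind t)))) :
    A p (A q (A r (ind t))) 0 = 1 - (max 0 (p + q + r - t)) ^ 3 / (24 * (p * q * r)) := by
  have e1 : A p (A q (A r (ind t))) 0 = (1 / (2 * p)) * ∫ z in (0 - p)..(0 + p), A q (A r (ind t)) z := by
    rw [A_eq_diff hp (fun _ _ => hc.intervalIntegrable _ _),
      intervalIntegral.integral_interval_sub_left (hc.intervalIntegrable _ _)
        (hc.intervalIntegrable _ _)]
  have e2 : ∫ z in (0 - p)..(0 + p), A q (A r (ind t)) z =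
      ∫ z in (0 - p)..(0 + p), (1 - ((max 0 (z - (t - q - r))) ^ (1 + 1) +
        (max 0 (-z - (t - q - r))) ^ (1 + 1)) / (8 * (q * r))) := by
    apply intervalIntegral.integral_congr
    intro z hz
    rw [uIcc_of_le (by linarith)] at hz
    simp only
    rw [td_A2 hq hr h1 h2 (by linarith) (abs_le.mpr ⟨by linarith [hz.1], by linarith [hz.2]⟩)]
  have e3 : ∫ z in (0 - p)..(0 + p), (max 0 (-z - (t - q - r))) ^ (1 + 1) =
      ∫ z in (0 - p)..(0 + p), (max 0 (z - (t - q - r))) ^ (1 + 1) := by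
    have := intervalIntegral.integral_comp_neg (a := 0 - p) (b := 0 + p)
      (f := fun z => (max 0 (z - (t - q - r))) ^ (1 + 1))
    rw [this]
    congr 1 <;> ring
  have i1 : IntervalIntegrable (fun z : ℝ => (max 0 (z - (t - q - r))) ^ (1 + 1)) volume (0 - p) (0 + p) :=
    Continuous.intervalIntegrable (by fun_prop) _ _
  have i2 : IntervalIntegrable (fun z : ℝ => (max 0 (-z - (t - q - r))) ^ (1 + 1)) volume (0 - p) (0 + p) :=
    Continuous.intervalIntegrable (by fun_prop) _ _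
  rw [e1, e2, intervalIntegral.integral_sub (by simp) ((i1.add i2).div_const _),
    intervalIntegral.integral_div, intervalIntegral.integral_add i1 i2, e3, td_integral]
  rw [max_eq_left (by linarith : 0 - p - (t - q - r) ≤ 0),
    show 0 + p - (t - q - r) = p + q + r - t by ring]
  simp only [intervalIntegral.integral_const, smul_eq_mul]
  push_cast
  field_simp
  ring

/-- The closed form when only the corners are cut off. -/
theorem prob_three (a : Fin 3 → ℝ) {t : ℝ} (h0 : 0 < a 0) (h1 : 0 < a 1) (h2 : 0 < a 2)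
    (h01 : a 0 + a 1 ≤ t) (h02 : a 0 + a 2 ≤ t) (h12 : a 1 + a 2 ≤ t) :
    prob a t = 1 - (max 0 (a 0 + a 1 + a 2 - t)) ^ 3 / (24 * (a 0 * a 1 * a 2)) := by
  have ht : 0 ≤ t := by linarith
  have hc1 : Continuous (A (a 0) (ind t)) := A_ind_cont h0 ht
  have hc2 : Continuous (A (a 1) (A (a 0) (ind t))) := A_cont _ hc1
  have e0 : |a 0| = a 0 := abs_of_pos h0
  have e1 : a ((0 : Fin 3).succAbove (0 : Fin 2)) = a 1 := by simp
  have e2 : a ((0 : Fin 3).succAbove ((0 : Fin 2).succAbove (0 : Fin 1))) = a 2 := by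
    simp only [Fin.zero_succAbove]
    rfl
  rw [prob_split (n := 2) _ 0, e0, cube_split_cont (n := 1) 0 _ _ hc1, e1,
    cube_split_cont (n := 0) 0 _ _ hc2, e2]
  simp only [Finset.univ_eq_empty, Finset.sum_empty, integral_const, probReal_univ, one_smul]
  rw [td_A3 h2 h1 h0 (by linarith) (by linarith) (by linarith) hc2]
  congr 2
  · congr 2; ring
  · ring

/-- A slab containing the cube. -/
theorem prob_eq_one {n : ℕ} (a : Fin n → ℝ) {t : ℝ} (h : ∑ j, |a j| ≤ t) : prob a t = 1 := by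
  unfold Pool.Agent.Helper88.Slab.prob
  have : ∫ x, ind t (∑ j, a j * x j) ∂(cube n) = ∫ _x, (1 : ℝ) ∂(cube n) := by
    apply integral_congr_ae
    filter_upwards [ae_cube n] with x hx
    unfold ind
    rw [if_pos]
    refine (Finset.abs_sum_le_sum_abs _ _).trans (le_trans ?_ h)
    apply Finset.sum_le_sum
    intro j _
    rw [abs_mul]
    have hx1 : |x j| ≤ 1 := abs_le.mpr ⟨hx.1 j, hx.2 j⟩
    exact mul_le_of_le_one_right (abs_nonneg _) hx1
  rw [this]
  simp

/-- Two coordinates with sum at least `t`. -/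
theorem regionA_vec {n : ℕ} (a : Fin n → ℝ) (ha : ∑ j, a j ^ 2 = 1) {t : ℝ} (h1 : 1.0129 ≤ t)
    (h2 : t ≤ √2) (hM2 : ff t ≤ 0) {i j : Fin n} (hij : i ≠ j) (hs : t ≤ |a i| + |a j|) :
    1 - (3 - √3 * t) ^ 3 / 24 ≤ prob a t := by
  have hsum : a i ^ 2 + a j ^ 2 ≤ 1 := by
    rw [← ha]
    have := Finset.sum_le_sum_of_subset_of_nonneg (Finset.subset_univ ({i, j} : Finset (Fin n)))
      (f := fun l => a l ^ 2) (fun l _ _ => sq_nonneg _)
    rwa [Finset.sum_pair hij] at this
  have hpi : |a i| ≤ 1 := by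
    rw [abs_le_one_iff_mul_self_le_one]; nlinarith [sq_nonneg (a j)]
  have hpj : |a j| ≤ 1 := by
    rw [abs_le_one_iff_mul_self_le_one]; nlinarith [sq_nonneg (a i)]
  have hi : a i ≠ 0 := by
    intro h0; rw [h0, abs_zero] at hs; linarith
  have hj : a j ≠ 0 := by
    intro h0; rw [h0, abs_zero] at hs; linarith
  have hp : 0 < |a i| := abs_pos.mpr hi
  have hq : 0 < |a j| := abs_pos.mpr hj
  obtain ⟨k1, k2⟩ := prob_two a i j hij ha (by linarith) hi hj hs
  rcases algebra_two (t := t) (M := (3 - √3 * t) ^ 3 / 24) h1 h2 rfl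
    (by unfold ff at hM2; linarith) hp hq (by rw [sq_abs, sq_abs]; exact hsum) hs with h | ⟨z, hz, hz2, h⟩
  · refine le_trans ?_ k1
    rw [sq_abs, sq_abs] at h
    have : (3 * (|a i| + |a j| - t) ^ 2 + (1 - a i ^ 2 - a j ^ 2)) / (12 * (|a i| * |a j|)) ≤
        (3 - √3 * t) ^ 3 / 24 := by
      rw [div_le_iff₀ (by positivity)]
      linarith
    linarith
  · rw [sq_abs, sq_abs] at hz2
    refine le_trans ?_ (k2 z hz hz2)
    have : (z + (|a i| + |a j| - t)) ^ 3 / (24 * (|a i| * |a j|) * z) ≤ (3 - √3 * t) ^ 3 / 24 := by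
      rw [div_le_iff₀ (by positivity)]
      linarith
    linarith

lemma ff_nonpos {t : ℝ} (h1 : 1.02 ≤ t) (h2 : t ≤ √2) : ff t ≤ 0 := by
  obtain ⟨t₁, a1, a2, a3⟩ := exists_t1
  exact (ff_neg a1 a3 (by linarith) h2).le

private lemma td_alg {S K t t0 : ℝ} (hS : S ^ 2 ≤ 3) (htS : t < S) (ht0 : 0 < t0) (htt : t0 ≤ t)
    (hK : 0 < K) (h : (S - t0) ^ 3 / (24 * K) ≤ (3 - √3 * t0) ^ 3 / 24) :
    (S - t) ^ 3 / (24 * K) ≤ (3 - √3 * t) ^ 3 / 24 := by
  have h33 : √3 ^ 2 = 3 := Real.sq_sqrt (by norm_num)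
  have h3 : 0 < √3 := by positivity
  have hS3 : S ≤ √3 := by
    rw [← abs_of_nonneg (by linarith : 0 ≤ S)]
    exact Real.abs_le_sqrt hS
  rw [div_le_div_iff₀ (by positivity) (by norm_num)] at h ⊢
  have e : ∀ u : ℝ, 3 - √3 * u = √3 * (√3 - u) := by intro u; linear_combination -h33
  rw [e, mul_pow] at h ⊢
  have p0 : 0 < √3 - t0 := by linarith
  have p1 : 0 ≤ √3 - t := by linarith
  have p2 : 0 ≤ S - t := by linarith
  have p3 : 0 ≤ S - t0 := by linarith
  have c1 : (S - t) * (√3 - t0) ≤ (S - t0) * (√3 - t) := by nlinarith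
  have c2 : ((S - t) * (√3 - t0)) ^ 3 ≤ ((S - t0) * (√3 - t)) ^ 3 :=
    pow_le_pow_left₀ (mul_nonneg p2 p0.le) c1 3
  rw [mul_pow, mul_pow] at c2
  have c3 : 0 < (√3 - t0) ^ 3 := by positivity
  have c4 : 0 ≤ (√3 - t) ^ 3 := by positivity
  have c5 : (S - t0) ^ 3 * (√3 - t) ^ 3 ≤ √3 ^ 3 * (√3 - t0) ^ 3 * K * (√3 - t) ^ 3 := by
    apply mul_le_mul_of_nonneg_right _ c4
    nlinarith
  have c6 : (S - t) ^ 3 * (√3 - t0) ^ 3 ≤ (√3 ^ 3 * (√3 - t) ^ 3 * K) * (√3 - t0) ^ 3 := by
    calc _ ≤ _ := c2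
      _ ≤ _ := c5
      _ = _ := by ring
  have c7 := le_of_mul_le_mul_right c6 c3
  nlinarith

private lemma td_pos (a : Fin 3 → ℝ) (ha : ∑ i, a i ^ 2 = 1) {t : ℝ} (ht : 1.02 ≤ t)
    (hpos : ∀ i, 0 < a i) (h01 : a 0 + a 1 < t) (h02 : a 0 + a 2 < t) (h12 : a 1 + a 2 < t)
    (hS : t < a 0 + a 1 + a 2) :
    1 - (3 - √3 * t) ^ 3 / 24 ≤ prob a t := by
  have ha' : a 0 ^ 2 + a 1 ^ 2 + a 2 ^ 2 = 1 := by
    rw [← ha, Fin.sum_univ_three]
  obtain ⟨h2a, h2b⟩ := sqrt2_b
  have hS3 : (a 0 + a 1 + a 2) ^ 2 ≤ 3 := by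
    nlinarith [sq_nonneg (a 0 - a 1), sq_nonneg (a 0 - a 2), sq_nonneg (a 1 - a 2)]
  have hK : 0 < a 0 * a 1 * a 2 := mul_pos (mul_pos (hpos 0) (hpos 1)) (hpos 2)
  have key : ∃ t0 : ℝ, 0 < t0 ∧ t0 ≤ t ∧ a 0 + a 1 ≤ t0 ∧ a 0 + a 2 ≤ t0 ∧ a 1 + a 2 ≤ t0 ∧
      1 - (3 - √3 * t0) ^ 3 / 24 ≤ prob a t0 := by
    have hpair : ∀ i j : Fin 3, i ≠ j → 1.02 ≤ a i + a j →
        1 - (3 - √3 * (a i + a j)) ^ 3 / 24 ≤ prob a (a i + a j) := by
      intro i j hij hle
      have hsum : a i ^ 2 + a j ^ 2 ≤ 1 := by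
        rw [← ha]
        have := Finset.sum_le_sum_of_subset_of_nonneg
          (Finset.subset_univ ({i, j} : Finset (Fin 3)))
          (f := fun l => a l ^ 2) (fun l _ _ => sq_nonneg _)
        rwa [Finset.sum_pair hij] at this
      have hle2 : a i + a j ≤ √2 := by
        apply Real.le_sqrt_of_sq_le
        nlinarith [sq_nonneg (a i - a j)]
      refine regionA_vec a ha (by linarith) hle2 (ff_nonpos hle hle2) hij ?_
      rw [abs_of_pos (hpos i), abs_of_pos (hpos j)]
    rcases le_total (a 0 + a 1) (a 0 + a 2) with c1 | c1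
    · rcases le_total (a 0 + a 2) (a 1 + a 2) with c2 | c2
      · rcases le_total 1.02 (a 1 + a 2) with c3 | c3
        · exact ⟨a 1 + a 2, by linarith, by linarith, by linarith, by linarith, le_rfl,
            hpair 1 2 (by decide) c3⟩
        · obtain ⟨t₁, b1, b2, b3⟩ := exists_t1
          exact ⟨1.02, by norm_num, ht, by linarith, by linarith, by linarith,
            three_min a ha b1 b2 b3 (by linarith) le_rfl⟩
      · rcases le_total 1.02 (a 0 + a 2) with c3 | c3
        · exact ⟨a 0 + a 2, by linarith, by linarith, by linarith, le_rfl, by linarith,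
            hpair 0 2 (by decide) c3⟩
        · obtain ⟨t₁, b1, b2, b3⟩ := exists_t1
          exact ⟨1.02, by norm_num, ht, by linarith, by linarith, by linarith,
            three_min a ha b1 b2 b3 (by linarith) le_rfl⟩
    · rcases le_total (a 0 + a 1) (a 1 + a 2) with c2 | c2
      · rcases le_total 1.02 (a 1 + a 2) with c3 | c3
        · exact ⟨a 1 + a 2, by linarith, by linarith, by linarith, by linarith, le_rfl,
            hpair 1 2 (by decide) c3⟩
        · obtain ⟨t₁, b1, b2, b3⟩ := exists_t1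
          exact ⟨1.02, by norm_num, ht, by linarith, by linarith, by linarith,
            three_min a ha b1 b2 b3 (by linarith) le_rfl⟩
      · rcases le_total 1.02 (a 0 + a 1) with c3 | c3
        · exact ⟨a 0 + a 1, by linarith, by linarith, le_rfl, by linarith, by linarith,
            hpair 0 1 (by decide) c3⟩
        · obtain ⟨t₁, b1, b2, b3⟩ := exists_t1
          exact ⟨1.02, by norm_num, ht, by linarith, by linarith, by linarith,
            three_min a ha b1 b2 b3 (by linarith) le_rfl⟩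
  obtain ⟨t0, t0pos, t0t, k01, k02, k12, hk⟩ := key
  rw [prob_three a (hpos 0) (hpos 1) (hpos 2) k01 k02 k12,
    max_eq_right (by linarith : 0 ≤ a 0 + a 1 + a 2 - t0)] at hk
  rw [prob_three a (hpos 0) (hpos 1) (hpos 2) h01.le h02.le h12.le,
    max_eq_right (by linarith : 0 ≤ a 0 + a 1 + a 2 - t)]
  have := td_alg hS3 hS t0pos t0t hK (by linarith)
  linarith

/-- SP-14. -/
theorem three_dim (a : Fin 3 → ℝ) (ha : ∑ i, a i ^ 2 = 1) {t : ℝ} (ht : 1.02 ≤ t) (ht2 : t ≤ √3) :
    1 - (3 - √3 * t) ^ 3 / 24 ≤ prob a t := by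
  have h33 : √3 ^ 2 = 3 := Real.sq_sqrt (by norm_num)
  have hM : 0 ≤ (3 - √3 * t) ^ 3 / 24 := by
    have : 0 ≤ 3 - √3 * t := by nlinarith [Real.sqrt_nonneg 3]
    positivity
  rcases le_or_gt (∑ j, |a j|) t with hS | hS
  · rw [prob_eq_one a hS]
    linarith
  by_cases hp : ∃ i j, i ≠ j ∧ t ≤ |a i| + |a j|
  · obtain ⟨i, j, hij, hle⟩ := hp
    have hsum : a i ^ 2 + a j ^ 2 ≤ 1 := by
      rw [← ha]
      have := Finset.sum_le_sum_of_subset_of_nonneg
        (Finset.subset_univ ({i, j} : Finset (Fin 3)))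
        (f := fun l => a l ^ 2) (fun l _ _ => sq_nonneg _)
      rwa [Finset.sum_pair hij] at this
    have hle2 : t ≤ √2 := by
      refine hle.trans ?_
      apply Real.le_sqrt_of_sq_le
      nlinarith [sq_nonneg (|a i| - |a j|), sq_abs (a i), sq_abs (a j)]
    exact regionA_vec a ha (by linarith) hle2 (ff_nonpos ht hle2) hij hle
  · push Not at hp
    rw [Fin.sum_univ_three] at hS
    rw [← prob_abs]
    refine td_pos (fun j => |a j|) ?_ ht ?_ (hp 0 1 (by decide)) (hp 0 2 (by decide))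
      (hp 1 2 (by decide)) hS
    · simp only [sq_abs]; exact ha
    · have q01 := hp 0 1 (by decide)
      have q02 := hp 0 2 (by decide)
      have q12 := hp 1 2 (by decide)
      intro i
      fin_cases i <;> simp only [Fin.zero_eta, Fin.mk_one, Fin.reduceFinMk] <;> linarith

end Pool.Agent.Helper89.SP
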